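import Pool.Agent.NSA.MN
import Pool.Agent.NSA.CY

/-!
# The arc bound for strongly connected non-separating signed digraphs

`f : Cfg n → Cfg n` is a Boolean network, `Arc f s j i` says that its signed interaction graph `G(f)` has an arc
`j → i` of sign `s`, and `Separating f` says that distinct attractors of the asynchronous graph have disjoint
smallest subspaces (`Pool/Agent/MP_d0ff89_co/Basic.lean`).  `arcSet f` is the set of arcs of `G(f)` (arcs of both signs
between the same vertices are different arcs) and `IsCycle f S` says that `S` is the arc set of an elementary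
directed cycle of `G(f)`, loops included (`Pool/Agent/NSA/CY.lean`).
-/

set_option autoImplicit false

namespace Pool.Agent.Results.MP_d0ff89_co.ArcBound

open NSep NSA

theorem result (n : ℕ) (f : Cfg n → Cfg n) (hc : ∀ j i, NSep.Path f j i) (h : ¬ Separating f) :
    n + 5 ≤ (arcSet f).card ∧
    (arcSet f).card + 1 ≤ n + {S | IsCycle f S}.ncard ∧
    6 ≤ {S | IsCycle f S}.ncard := by
  have h1 : n + 5 ≤ (arcSet f).card := arc_bound f hc h
  have h0 : 0 < n := by
    rcases Nat.eq_zero_or_pos n with rfl | hn
    · exfalso
      have hc0 : (arcSet f).card = 0 := by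
        rw [Finset.card_eq_zero, Finset.eq_empty_iff_forall_notMem]
        rintro ⟨_, j, _⟩ _
        exact j.elim0
      omega
    · exact hn
  have h2 := cycle_count (f := f) hc h0
  exact ⟨h1, h2, by omega⟩

end Pool.Agent.Results.MP_d0ff89_co.ArcBound
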