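import Pool.Agent.MP_d0ff89_co.Final

/-!
# Non-separating signed digraphs: a new class of separating digraphs, and a third positive cycle

The definitions (`Arc`, `Step`, `IsAttractor`, `hull`, `Separating`, `PosCycle`, `SameComp`) are in
`Pool/Agent/MP_d0ff89_co/Basic.lean`.
-/

set_option autoImplicit false

namespace Pool.Agent.Results.MP_d0ff89_co.OneHead

open NSep

theorem result :
    (∀ (n : ℕ) (f : Cfg n → Cfg n),
      (∀ a : Fin n, ∃ v : Fin n,
        (∀ W : Finset (Fin n), (∀ k ∈ W, SameComp f a k) → PosCycle f W → v ∈ W) ∨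
        (∃ σ : Cfg n, ∀ s j i, Arc f s j i → SameComp f a j → SameComp f a i → i ≠ v → s = (σ j == σ i))) →
      Separating f) ∧
    (∀ (n : ℕ) (f : Cfg n → Cfg n) (A B : Set (Cfg n)), IsAttractor f A → IsAttractor f B → A ≠ B →
      hull A ∩ hull B ≠ ∅ → (∀ k, (∃ c, ∀ x ∈ A, x k = c) ∨ (∃ c, ∀ y ∈ B, y k = c)) →
      ∃ W₁ W₂ W₃ : Finset (Fin n), PosCycle f W₁ ∧ PosCycle f W₂ ∧ PosCycle f W₃ ∧
        W₁ ≠ W₂ ∧ W₁ ≠ W₃ ∧ W₂ ≠ W₃) :=
  ⟨fun _ f h => separating_of_components f h, fun _ f A B hA hB hAB h hc => three_positive_cycles f A B hA hB hAB h hc⟩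

end Pool.Agent.Results.MP_d0ff89_co.OneHead
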